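import Mathlib

set_option autoImplicit false

namespace Pool.Agent.Moser

open Finset

/-- The improved Blichfeldt bound in dimension three. -/
theorem lower_bound {n : ℕ} (hn : 3 ≤ n) (P : Fin n → EuclideanSpace ℝ (Fin 3))
    (hP : ∀ i j, i ≠ j → 2 ≤ dist (P i) (P j)) (O : EuclideanSpace ℝ (Fin 3)) :
    2 * ((n : ℝ) - 1) + 4 * ((n : ℝ) - 4) / ((n : ℝ) - 2) ≤ ∑ i, dist O (P i) ^ 2 := by
  classical
  have hn' : (3 : ℝ) ≤ n := by exact_mod_cast hn
  -- vectors relative to `O`
  set v : Fin n → EuclideanSpace ℝ (Fin 3) := fun i => P i - O with hv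
  have hvd : ∀ i, dist O (P i) ^ 2 = ‖v i‖ ^ 2 := by
    intro i
    rw [dist_comm, dist_eq_norm]
  -- squared distances minus four
  set t : Fin n → Fin n → ℝ := fun i j => ‖v i - v j‖ ^ 2 - 4 with ht
  have ht0 : ∀ i j, i ≠ j → 0 ≤ t i j := by
    intro i j hij
    have h1 := hP i j hij
    have h2 : dist (P i) (P j) = ‖v i - v j‖ := by
      rw [dist_eq_norm]
      simp [hv]
    rw [h2] at h1
    simp only [ht]
    nlinarith
  -- the kernel
  let L : EuclideanSpace ℝ (Fin n) →ₗ[ℝ] ℝ × EuclideanSpace ℝ (Fin 3) :=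
    { toFun := fun x => (∑ i, x i, ∑ i, x i • v i)
      map_add' := by
        intro x y
        simp [add_smul, Finset.sum_add_distrib]
      map_smul' := by
        intro c x
        simp [Finset.mul_sum, Finset.smul_sum, mul_smul] }
  set K := LinearMap.ker L with hK
  have hdim : (n : ℝ) - 4 ≤ (Module.finrank ℝ K : ℝ) := by
    have h1 : Module.finrank ℝ (LinearMap.range L) + Module.finrank ℝ K =
        Module.finrank ℝ (EuclideanSpace ℝ (Fin n)) := LinearMap.finrank_range_add_finrank_ker L
    have h2 : Module.finrank ℝ (LinearMap.range L) ≤ 4 := by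
      refine (Submodule.finrank_le _).trans ?_
      simp
    rw [finrank_euclideanSpace_fin] at h1
    have h3 : n ≤ Module.finrank ℝ K + 4 := by omega
    have h4 : (n : ℝ) ≤ (Module.finrank ℝ K : ℝ) + 4 := by exact_mod_cast h3
    linarith
  let b := stdOrthonormalBasis ℝ K
  set m := Module.finrank ℝ K with hm
  set e : Fin m → EuclideanSpace ℝ (Fin n) := fun k => (b k : EuclideanSpace ℝ (Fin n)) with he
  have heorth : Orthonormal ℝ e := by
    have := b.orthonormal
    exact this.comp_linearIsometry K.subtypeₗᵢ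
  have heK : ∀ k, ∑ i, e k i = 0 ∧ ∑ i, e k i • v i = 0 := by
    intro k
    have h1 : L (e k) = 0 := (b k).2
    have h2 := Prod.mk.inj (show ((∑ i, e k i, ∑ i, e k i • v i) : ℝ × EuclideanSpace ℝ (Fin 3)) = (0, 0) from h1)
    exact h2
  -- quadratic form on the kernel
  have hquad : ∀ k, ∑ i, ∑ j, e k i * e k j * ‖v i - v j‖ ^ 2 = 0 := by
    intro k
    obtain ⟨h1, h2⟩ := heK k
    have h3 : ∀ i j, e k i * e k j * ‖v i - v j‖ ^ 2 =
        (e k i * ‖v i‖ ^ 2) * e k j + e k i * (e k j * ‖v j‖ ^ 2)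
          - 2 * (inner ℝ (e k i • v i) (e k j • v j)) := by
      intro i j
      rw [norm_sub_sq_real, inner_smul_left, inner_smul_right]
      simp only [RCLike.conj_to_real]
      ring
    simp only [h3, Finset.sum_sub_distrib, Finset.sum_add_distrib]
    have e1 : ∑ i, ∑ j, (e k i * ‖v i‖ ^ 2) * e k j = 0 := by
      simp only [← Finset.mul_sum, h1, mul_zero, Finset.sum_const_zero]
    have e2 : ∑ i, ∑ j, e k i * (e k j * ‖v j‖ ^ 2) = 0 := by
      simp only [← Finset.mul_sum]
      rw [← Finset.sum_mul, h1, zero_mul]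
    have e3 : ∑ i, ∑ j, 2 * (inner ℝ (e k i • v i) (e k j • v j)) = 0 := by
      simp only [← Finset.mul_sum, ← inner_sum, h2, inner_zero_right, mul_zero, Finset.sum_const_zero]
    rw [e1, e2, e3]
    ring
  -- projection entries
  set p : Fin n → Fin n → ℝ := fun i j => ∑ k, e k i * e k j with hp
  have hsumk : ∀ k, ∑ i, ∑ j, (if i = j then 0 else e k i * e k j * t i j) = 4 := by
    intro k
    obtain ⟨h1, h2⟩ := heK k
    have hnorm : ∑ i, e k i * e k i = 1 := by
      have := heorth.1 k
      rw [EuclideanSpace.norm_eq] at this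
      have h4 : ∑ i, ‖e k i‖ ^ 2 = 1 := by
        rw [Real.sqrt_eq_one] at this
        exact this
      rw [← h4]
      apply Finset.sum_congr rfl
      intro i _
      rw [Real.norm_eq_abs, sq_abs]
      ring
    have h5 : ∀ i j, (if i = j then 0 else e k i * e k j * t i j) =
        e k i * e k j * ‖v i - v j‖ ^ 2 - 4 * (e k i * e k j) + (if i = j then 4 * (e k i * e k i) else 0) := by
      intro i j
      by_cases hij : i = j
      · subst hij
        simp
      · simp only [hij, if_false, ht]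
        ring
    simp only [h5, Finset.sum_add_distrib, Finset.sum_sub_distrib]
    rw [hquad k]
    have h6 : ∑ i, ∑ j, 4 * (e k i * e k j) = 0 := by
      simp only [← Finset.mul_sum, h1, mul_zero, Finset.sum_const_zero]
    rw [h6]
    simp only [Finset.sum_ite_eq, Finset.mem_univ, if_true, ← Finset.mul_sum]
    rw [hnorm]
    ring
  have hsump : ∑ i, ∑ j, (if i = j then 0 else p i j * t i j) = 4 * (m : ℝ) := by
    have h7 : ∀ i j, (if i = j then 0 else p i j * t i j) =
        ∑ k, (if i = j then 0 else e k i * e k j * t i j) := by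
      intro i j
      by_cases hij : i = j
      · simp [hij]
      · simp only [hij, if_false, hp, Finset.sum_mul]
    simp only [h7]
    have h8 : ∑ i, ∑ j, ∑ k, (if i = j then 0 else e k i * e k j * t i j) =
        ∑ k, ∑ i, ∑ j, (if i = j then 0 else e k i * e k j * t i j) := by
      calc ∑ i, ∑ j, ∑ k, (if i = j then 0 else e k i * e k j * t i j)
          = ∑ i, ∑ k, ∑ j, (if i = j then 0 else e k i * e k j * t i j) :=
            Finset.sum_congr rfl (fun i _ => Finset.sum_comm)
        _ = ∑ k, ∑ i, ∑ j, (if i = j then 0 else e k i * e k j * t i j) := Finset.sum_comm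
    rw [h8]
    simp only [hsumk, Finset.sum_const, Finset.card_univ, Fintype.card_fin, nsmul_eq_mul]
    ring
  -- Bessel bound for the projection entries
  have hpij : ∀ i j, i ≠ j → p i j ≤ 1 / 2 - 1 / (n : ℝ) := by
    intro i j hij
    set w : EuclideanSpace ℝ (Fin n) := EuclideanSpace.single i 1 + EuclideanSpace.single j 1
      - (2 / (n : ℝ)) • (WithLp.toLp 2 (fun _ => (1 : ℝ))) with hw
    have hin : ∀ k, inner ℝ (e k) w = e k i + e k j := by
      intro k
      have h1 := (heK k).1
      rw [hw, inner_sub_right, inner_add_right, inner_smul_right, EuclideanSpace.inner_single_right,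
        EuclideanSpace.inner_single_right]
      have h9 : inner ℝ (e k) (WithLp.toLp 2 (fun _ => (1 : ℝ))) = 0 := by
        simp [PiLp.inner_apply, h1]
      rw [h9]
      simp
    have hww : ‖w‖ ^ 2 = 2 - 4 / (n : ℝ) := by
      have hn0 : (n : ℝ) ≠ 0 := by positivity
      have h10 : inner ℝ (WithLp.toLp 2 (fun _ => (1 : ℝ)) : EuclideanSpace ℝ (Fin n)) (WithLp.toLp 2 (fun _ => (1 : ℝ))) = (n : ℝ) := by
        rw [PiLp.inner_apply]
        simp
      have h11 : ∀ a : Fin n, inner ℝ (EuclideanSpace.single a (1 : ℝ)) (WithLp.toLp 2 (fun _ => (1 : ℝ)) : EuclideanSpace ℝ (Fin n)) = (1 : ℝ) := by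
        intro a
        rw [EuclideanSpace.inner_single_left]
        simp
      have h12 : ∀ a : Fin n, inner ℝ (WithLp.toLp 2 (fun _ => (1 : ℝ)) : EuclideanSpace ℝ (Fin n)) (EuclideanSpace.single a (1 : ℝ)) = (1 : ℝ) := by
        intro a
        rw [EuclideanSpace.inner_single_right]
        simp
      have h13 : inner ℝ (EuclideanSpace.single i (1 : ℝ)) (EuclideanSpace.single j (1 : ℝ) : EuclideanSpace ℝ (Fin n)) = (0 : ℝ) := by
        rw [EuclideanSpace.inner_single_left]
        simp [hij]
      have h14 : inner ℝ (EuclideanSpace.single j (1 : ℝ)) (EuclideanSpace.single i (1 : ℝ) : EuclideanSpace ℝ (Fin n)) = (0 : ℝ) := by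
        rw [EuclideanSpace.inner_single_left]
        simp [hij.symm]
      have h15 : ∀ a : Fin n, inner ℝ (EuclideanSpace.single a (1 : ℝ)) (EuclideanSpace.single a (1 : ℝ) : EuclideanSpace ℝ (Fin n)) = (1 : ℝ) := by
        intro a
        rw [EuclideanSpace.inner_single_left]
        simp
      rw [← real_inner_self_eq_norm_sq, hw]
      simp only [inner_sub_left, inner_sub_right, inner_add_left, inner_add_right, inner_smul_left,
        inner_smul_right, h10, h11, h12, h13, h14, h15, RCLike.conj_to_real]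
      field_simp
      ring
    have hbess : ∑ k, (e k i + e k j) ^ 2 ≤ 2 - 4 / (n : ℝ) := by
      have := heorth.sum_inner_products_le (x := w) (s := Finset.univ)
      rw [hww] at this
      refine le_trans (le_of_eq ?_) this
      apply Finset.sum_congr rfl
      intro k _
      rw [hin k, Real.norm_eq_abs, sq_abs]
    have h16 : p i j ≤ ∑ k, (e k i + e k j) ^ 2 / 4 := by
      simp only [hp]
      apply Finset.sum_le_sum
      intro k _
      nlinarith [sq_nonneg (e k i - e k j)]
    rw [← Finset.sum_div] at h16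
    have : (2 - 4 / (n : ℝ)) / 4 = 1 / 2 - 1 / (n : ℝ) := by ring
    linarith
  -- sum of t
  set Tsum : ℝ := ∑ i, ∑ j, (if i = j then 0 else t i j) with hTsum
  have hTbound : 4 * ((n : ℝ) - 4) ≤ (1 / 2 - 1 / (n : ℝ)) * Tsum := by
    calc 4 * ((n : ℝ) - 4) ≤ 4 * (m : ℝ) := by linarith
      _ = ∑ i, ∑ j, (if i = j then 0 else p i j * t i j) := hsump.symm
      _ ≤ ∑ i, ∑ j, (1 / 2 - 1 / (n : ℝ)) * (if i = j then 0 else t i j) := by
          apply Finset.sum_le_sum
          intro i _
          apply Finset.sum_le_sum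
          intro j _
          by_cases hij : i = j
          · simp [hij]
          · simp only [hij, if_false]
            exact mul_le_mul_of_nonneg_right (hpij i j hij) (ht0 i j hij)
      _ = (1 / 2 - 1 / (n : ℝ)) * Tsum := by
          rw [hTsum, Finset.mul_sum]
          apply Finset.sum_congr rfl
          intro i _
          rw [Finset.mul_sum]
  -- Lagrange
  have hlag : ∑ i, ∑ j, ‖v i - v j‖ ^ 2 ≤ 2 * n * ∑ i, ‖v i‖ ^ 2 := by
    have h1 : ∀ i j, ‖v i - v j‖ ^ 2 = ‖v i‖ ^ 2 + ‖v j‖ ^ 2 - 2 * inner ℝ (v i) (v j) := by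
      intro i j
      rw [norm_sub_sq_real]
      ring
    simp only [h1, Finset.sum_sub_distrib, Finset.sum_add_distrib, ← Finset.mul_sum, ← inner_sum,
      ← sum_inner, Finset.sum_const, Finset.card_univ, Fintype.card_fin, nsmul_eq_mul]
    have h2 : 0 ≤ inner ℝ (∑ i, v i) (∑ i, v i) := real_inner_self_nonneg
    nlinarith
  have hsplit : ∑ i, ∑ j, ‖v i - v j‖ ^ 2 = Tsum + 4 * ((n : ℝ) * n - n) := by
    have h1 : ∀ i j, ‖v i - v j‖ ^ 2 = (if i = j then 0 else t i j) + 4 - (if i = j then 4 else 0) := by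
      intro i j
      by_cases hij : i = j
      · simp [hij]
      · simp [hij, ht]
    simp only [h1, Finset.sum_sub_distrib, Finset.sum_add_distrib, Finset.sum_const, Finset.card_univ,
      Fintype.card_fin, nsmul_eq_mul, Finset.sum_ite_eq, Finset.mem_univ, if_true]
    ring
  simp only [hvd]
  have hn0 : (0 : ℝ) < n := by linarith
  have hn2 : (0 : ℝ) < (n : ℝ) - 2 := by linarith
  have hT2 : 8 * (n : ℝ) * ((n : ℝ) - 4) / ((n : ℝ) - 2) ≤ Tsum := by
    rw [div_le_iff₀ hn2]
    have h1 : (1 / 2 - 1 / (n : ℝ)) * Tsum = Tsum * ((n : ℝ) - 2) / (2 * n) := by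
      field_simp
    rw [h1, le_div_iff₀ (by positivity)] at hTbound
    nlinarith
  have hfin : 2 * (n : ℝ) * (2 * ((n : ℝ) - 1) + 4 * ((n : ℝ) - 4) / ((n : ℝ) - 2)) ≤
      2 * n * ∑ i, ‖v i‖ ^ 2 := by
    have h2 : 2 * (n : ℝ) * (2 * ((n : ℝ) - 1) + 4 * ((n : ℝ) - 4) / ((n : ℝ) - 2)) =
        8 * (n : ℝ) * ((n : ℝ) - 4) / ((n : ℝ) - 2) + 4 * ((n : ℝ) * n - n) := by
      field_simp
      ring
    rw [h2]
    linarith
  exact le_of_mul_le_mul_left hfin (by positivity)

end Pool.Agent.Moser
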